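import Pool.Agent.H96.PZ.Stmts3
import Pool.Agent.H55.PZ.Zsp

/-!
# The plank zoom: the exclusions, from the zoom to the exact points of the family (row EXT)
-/

set_option autoImplicit false

namespace Pool.PZ

open Finset Real
open Pool.Agent.H49.Ent Pool.Agent.H32.Dense Pool.STK Pool.KA Pool.KSAT Pool.K2S Pool.PB Pool.KS6
open Pool.ZCL Pool.S6C

/-- The coordinates of the plank are Lipschitz. -/
theorem pkC_lip {i₀ iu : Fin 3} {lam n : ℕ} {k : Fr} (hl : lam ≤ n) (he : |k.1| ≤ 2)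
    (hc : |k.2.1| ≤ 4) (hs : |k.2.2| ≤ 4) (x y : Fin 3 → ℝ) (h : ∀ j, |x j - y j| ≤ 1)
    (i : Fin 3) : |(pkC lam n i₀ iu).L k x i - (pkC lam n i₀ iu).L k y i| ≤ 9 * 2 ^ n := by
  have hn : (1 : ℝ) ≤ 2 ^ n := one_le_pow₀ (by norm_num)
  have hln : (2 : ℝ) ^ lam ≤ 2 ^ n := pow_le_pow_right₀ (by norm_num) hl
  have pl : (0 : ℝ) < 2 ^ lam := by positivity
  have pn : (0 : ℝ) < 2 ^ n := by positivity
  change |(if i = i₀ then x i₀ else if i = iu then 2 ^ lam * (x iu - k.1 * x i₀)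
    else 2 ^ n * (k.2.1 * x i₀ + k.2.2 * x iu + x i)) -
    (if i = i₀ then y i₀ else if i = iu then 2 ^ lam * (y iu - k.1 * y i₀)
    else 2 ^ n * (k.2.1 * y i₀ + k.2.2 * y iu + y i))| ≤ _
  have m1 : |k.1 * (x i₀ - y i₀)| ≤ 2 * 1 := by
    rw [abs_mul]
    exact mul_le_mul he (h i₀) (abs_nonneg _) (by norm_num)
  have m2 : |k.2.1 * (x i₀ - y i₀)| ≤ 4 * 1 := by
    rw [abs_mul]
    exact mul_le_mul hc (h i₀) (abs_nonneg _) (by norm_num)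
  have m3 : |k.2.2 * (x iu - y iu)| ≤ 4 * 1 := by
    rw [abs_mul]
    exact mul_le_mul hs (h iu) (abs_nonneg _) (by norm_num)
  split_ifs with h1 h2
  · refine (h i₀).trans ?_
    linarith only [hn]
  · have e1 : 2 ^ lam * (x iu - k.1 * x i₀) - 2 ^ lam * (y iu - k.1 * y i₀) =
        2 ^ lam * ((x iu - y iu) - k.1 * (x i₀ - y i₀)) := by ring
    rw [e1, abs_mul, abs_of_pos pl]
    have h3 : |(x iu - y iu) - k.1 * (x i₀ - y i₀)| ≤ 9 := by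
      refine (abs_sub _ _).trans ?_
      have := h iu
      linarith only [m1, this]
    calc (2 : ℝ) ^ lam * |(x iu - y iu) - k.1 * (x i₀ - y i₀)| ≤ 2 ^ n * 9 :=
          mul_le_mul hln h3 (abs_nonneg _) pn.le
      _ = 9 * 2 ^ n := by ring
  · have e1 : 2 ^ n * (k.2.1 * x i₀ + k.2.2 * x iu + x i) -
        2 ^ n * (k.2.1 * y i₀ + k.2.2 * y iu + y i) =
        2 ^ n * (k.2.1 * (x i₀ - y i₀) + k.2.2 * (x iu - y iu) + (x i - y i)) := by ring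
    rw [e1, abs_mul, abs_of_pos pn]
    have h3 : |k.2.1 * (x i₀ - y i₀) + k.2.2 * (x iu - y iu) + (x i - y i)| ≤ 9 := by
      refine (abs_add_le _ _).trans ?_
      have h4 := abs_add_le (k.2.1 * (x i₀ - y i₀)) (k.2.2 * (x iu - y iu))
      have := h i
      linarith only [m2, m3, h4, this]
    calc (2 : ℝ) ^ n * |k.2.1 * (x i₀ - y i₀) + k.2.2 * (x iu - y iu) + (x i - y i)| ≤
          2 ^ n * 9 := mul_le_mul_of_nonneg_left h3 pn.le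
      _ = 9 * 2 ^ n := by ring

theorem pv_i0 {J : ℕ} (F : Fam 3 J) (i₀ iu : Fin 3) (lam n : ℕ) (y : F.Ω → Pln) (ω : F.Ω) :
    pv F i₀ iu lam n y ω i₀ = F.d ω i₀ := by
  change (if i₀ = i₀ then F.d ω i₀ else _) = _
  rw [if_pos rfl]

theorem pv_iu {J : ℕ} (F : Fam 3 J) {i₀ iu : Fin 3} (hiu : iu ≠ i₀) (lam n : ℕ) (y : F.Ω → Pln)
    (ω : F.Ω) : pv F i₀ iu lam n y ω iu = 2 ^ lam * fu i₀ iu (y ω).e (F.d ω) := by
  change (if iu = i₀ then F.d ω i₀ else if iu = iu then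
      2 ^ lam * (F.d ω iu - (y ω).e * F.d ω i₀) else _) = _
  rw [if_neg hiu, if_pos rfl]
  unfold fu
  ring

theorem pv_iN {J : ℕ} (F : Fam 3 J) {i₀ iu iN : Fin 3} (hiN : iN ≠ i₀) (hNu : iN ≠ iu)
    (lam n : ℕ) (y : F.Ω → Pln) (ω : F.Ω) :
    pv F i₀ iu lam n y ω iN = 2 ^ n * fn i₀ iu iN (y ω).c (y ω).s (F.d ω) := by
  change (if iN = i₀ then F.d ω i₀ else if iN = iu then
      2 ^ lam * (F.d ω iu - (y ω).e * F.d ω i₀) else
      2 ^ n * ((y ω).c * F.d ω i₀ + (y ω).s * F.d ω iu + F.d ω iN)) = _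
  rw [if_neg hiN, if_neg hNu]
  unfold fn
  ring

/-- The velocities in the coordinates of the plank, on the fans. -/
theorem pv_osc {J : ℕ} {F : Fam 3 J} {i₀ iu iN : Fin 3} {r w lam P : ℕ} {y : F.Ω → Pln}
    {A : F.Ω → Prop} (hz : PzF F i₀ iu iN r w lam P y A) {ω ω' : F.Ω} (h1 : A ω) (h2 : A ω')
    (e : y ω = y ω') (i : Fin 3) :
    |pv F i₀ iu lam (P - w) y ω i - pv F i₀ iu lam (P - w) y ω' i| ≤ 40 := by
  obtain ⟨hiu, hiN, hNu⟩ := cov_ne hz.cov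
  have pl : (0 : ℝ) < 2 ^ lam := by positivity
  have pn : (0 : ℝ) < 2 ^ (P - w) := by positivity
  have hwP : w ≤ P := by
    have := hz.wP
    omega
  have hPw : (2 : ℝ) ^ P = 2 ^ (P - w) * 2 ^ w := by rw [← pow_add, Nat.sub_add_cancel hwP]
  have i1 := hz.inc ω h1
  have i2 := hz.inc ω' h2
  rw [← e] at i2
  rcases hz.cov i with hi | hi | hi
  · rw [hi, pv_i0, pv_i0]
    have a1 := i1.ve
    have a2 := i2.ve
    rw [abs_le] at a1 a2 ⊢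
    constructor <;> linarith only [a1, a2, a1.1, a1.2, a2.1, a2.2]
  · rw [hi, pv_iu F hiu, pv_iu F hiu, ← e, ← mul_sub, abs_mul, abs_of_pos pl]
    have a1 := i1.vu
    have a2 := i2.vu
    have a3 : |fu i₀ iu (y ω).e (F.d ω) - fu i₀ iu (y ω).e (F.d ω')| ≤ 40 / 2 ^ lam := by
      have e1 : (40 : ℝ) / 2 ^ lam = 20 / 2 ^ lam + 20 / 2 ^ lam := by ring
      rw [e1]
      rw [abs_le] at a1 a2 ⊢
      constructor <;> linarith only [a1, a2, a1.1, a1.2, a2.1, a2.2]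
    calc (2 : ℝ) ^ lam * |fu i₀ iu (y ω).e (F.d ω) - fu i₀ iu (y ω).e (F.d ω')| ≤
          2 ^ lam * (40 / 2 ^ lam) := mul_le_mul_of_nonneg_left a3 pl.le
      _ = 40 := by field_simp
  · rw [hi, pv_iN F hiN hNu, pv_iN F hiN hNu, ← e, ← mul_sub, abs_mul, abs_of_pos pn]
    have a1 := i1.vn
    have a2 := i2.vn
    have a3 : |fn i₀ iu iN (y ω).c (y ω).s (F.d ω) - fn i₀ iu iN (y ω).c (y ω).s (F.d ω')| ≤
        40 * 2 ^ w / 2 ^ P := by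
      have e1 : (40 : ℝ) * 2 ^ w / 2 ^ P = 20 * 2 ^ w / 2 ^ P + 20 * 2 ^ w / 2 ^ P := by ring
      rw [e1]
      rw [abs_le] at a1 a2 ⊢
      constructor <;> linarith only [a1, a2, a1.1, a1.2, a2.1, a2.2]
    calc (2 : ℝ) ^ (P - w) * |fn i₀ iu iN (y ω).c (y ω).s (F.d ω) -
          fn i₀ iu iN (y ω).c (y ω).s (F.d ω')| ≤ 2 ^ (P - w) * (40 * 2 ^ w / 2 ^ P) :=
          mul_le_mul_of_nonneg_left a3 pn.le
      _ = 40 := by
        rw [hPw]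
        field_simp

/-- The slope of the fans is the slope of the plank: `AfP` in the coordinates. -/
theorem afp_of_slo {J : ℕ} {F : Fam 3 J} {i₀ iu iN : Fin 3} {w lam P q : ℕ} {y : F.Ω → Pln}
    {A : F.Ω → Prop} (hz : PzF F i₀ iu iN J w lam P y A) (hs : Slo F i₀ iu lam q y A) :
    AfP i₀ iu (1 / 24) (2 ^ lam / 2 ^ q) (Fam.pt F) (pv F i₀ iu lam (P - w) y) A := by
  obtain ⟨hiu, hiN, hNu⟩ := cov_ne hz.cov
  obtain ⟨α, ν, hν⟩ := hs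
  obtain ⟨φ, hφ⟩ := hz.vis
  have pl : (0 : ℝ) < 2 ^ lam := by positivity
  refine ⟨fun u => 2 ^ lam * α u, fun u => 2 ^ lam * (ν u - (φ u).e), fun ω hω => ?_⟩
  obtain ⟨h1, h2⟩ := hν ω hω
  have h3 : φ (Fam.pt F ω) = y ω := (hφ ω hω).symm
  simp only
  rw [h3]
  constructor
  · rw [abs_mul, abs_of_pos pl]
    calc (2 : ℝ) ^ lam * |ν (Fam.pt F ω) - (y ω).e| ≤ 2 ^ lam * (1 / (24 * 2 ^ lam)) :=
          mul_le_mul_of_nonneg_left h2 pl.le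
      _ = 1 / 24 := by field_simp
  · rw [pv_iu F hiu, pv_i0]
    have e1 : 2 ^ lam * fu i₀ iu (y ω).e (F.d ω) - 2 ^ lam * α (Fam.pt F ω) -
        2 ^ lam * (ν (Fam.pt F ω) - (y ω).e) * F.d ω i₀ =
        2 ^ lam * (F.d ω iu - α (Fam.pt F ω) - ν (Fam.pt F ω) * F.d ω i₀) := by
      unfold fu
      ring
    rw [e1, abs_mul, abs_of_pos pl]
    calc (2 : ℝ) ^ lam * |F.d ω iu - α (Fam.pt F ω) - ν (Fam.pt F ω) * F.d ω i₀| ≤
          2 ^ lam * (1 / 2 ^ q) := mul_le_mul_of_nonneg_left h1 pl.le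
      _ = 2 ^ lam / 2 ^ q := by ring

/-- The exact points of the zoom are functions of the exact points of the family, on a part. -/
theorem pz_vis {J : ℕ} {F : Fam 3 J} {i₀ iu iN : Fin 3} {w lam P J' : ℕ} {y : F.Ω → Pln}
    {A : F.Ω → Prop} (hz : PzF F i₀ iu iN J w lam P y A) (h : w + J' ≤ J) (hPJ : P + J' ≤ J) :
    ∃ B : F.Ω → Prop, Sub B A ∧ Pe F.p A ≤ ((2 * ((9 + 40 + 7 : ℕ) : ℝ) + 1) ^ 3) ^ 3 *
      Pe F.p B ∧
      (∃ φ : (Fin 3 → ℤ) × (ℕ × F.ζ) → Fin 3 → ℤ, ∀ ω, B ω →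
        F.bvl (pkC lam (P - w) i₀ iu) (fun ω => fr (y ω)) ω = φ (ptr F J ω)) ∧
      ∃ φ : (Fin 3 → ℤ) × (ℕ × F.ζ) → (Fin 3 → ℤ) ×
          (ℕ × (F.zm w J' h (pkC lam (P - w) i₀ iu) (fun ω => fr (y ω))).ζ),
        ∀ ω, B ω → Fam.pt (F.zm w J' h (pkC lam (P - w) i₀ iu) (fun ω => fr (y ω))) ω =
          φ (ptr F J ω) := by
  have hwP := hz.wP
  obtain ⟨φ, hφ⟩ := hz.vis
  refine zm_vis F (lam := P - w) (r := J) (b := 9) (b' := 40) h (by omega)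
    (fun ω => fr (y ω)) A ?_ (fun u => fr (φ u)) ?_ ?_
  · intro ω hω x y' hxy i
    have hi := hz.inc ω hω
    have := pkC_lip (i₀ := i₀) (iu := iu) (lam := lam) (n := P - w) (k := fr (y ω)) (by omega)
      hi.e_le hi.c_le hi.s_le x y' hxy i
    push_cast
    exact this
  · intro ω hω
    rw [hφ ω hω]
  · intro ω ω' h1 h2 e i
    have e1 : y ω = y ω' := by rw [hφ ω h1, hφ ω' h2, e]
    have := pv_osc hz h1 h2 e1 i
    push_cast
    exact this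

/-- **Row EXT.** -/
theorem ext_thm : EXTStmt := by
  obtain ⟨C1, hC1, hZ1⟩ := zs1_thm
  obtain ⟨C3, hC3, hZ3⟩ := zs3_thm
  obtain ⟨C0, hC0⟩ : ∃ C0 : ℝ, C0 = ((2 * ((9 + 40 + 7 : ℕ) : ℝ) + 1) ^ 3) ^ 3 := ⟨_, rfl⟩
  have hC01 : 1 ≤ C0 := by
    rw [hC0]
    norm_num
  refine ⟨40 * (C1 + C3 + 1) + 2 * C0, by linarith only [hC1, hC3, hC01], ?_⟩
  intro J F i₀ iu iN w lam P J' q y A hA h hz hPJ hlq hslo B ρ ρ' hρJ hρ1 hρ' hρ'1 hcase
  obtain ⟨C, hC⟩ : ∃ C : ℝ, C = 40 * (C1 + C3 + 1) + 2 * C0 := ⟨_, rfl⟩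
  rw [← hC]
  have hp := F.isLaw
  have hwP : w ≤ P := by
    have := hz.wP
    omega
  obtain ⟨r₁, hr₁⟩ : ∃ r₁ : ℝ, r₁ = 2 ^ lam / 2 ^ q := ⟨_, rfl⟩
  have hr0 : 0 ≤ r₁ := by
    rw [hr₁]
    positivity
  rw [← hr₁]
  have hρ0 : 0 ≤ ρ := le_trans (by positivity) hρJ
  have hz' : PzF F i₀ iu iN J w lam P y (fun ω => B ω ∧ A ω) := hz.sub fun ω hω => hω.2
  obtain ⟨B₁, hB₁, hP₁, hvis, hpt⟩ := pz_vis hz' h hPJ
  rw [← hC0] at hP₁
  have hB₁A : Sub B₁ A := fun ω hω => (hB₁ ω hω).2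
  have hB₁B : Sub B₁ B := fun ω hω => (hB₁ ω hω).1
  obtain ⟨V, hV⟩ : ∃ V : F.Ω → Fin 3 → ℝ, V = pv F i₀ iu lam (P - w) y := ⟨_, rfl⟩
  have hAf : AfP i₀ iu (1 / 24) r₁ (Fam.pt F) V B₁ := by
    rw [hV, hr₁]
    obtain ⟨α, ν, hν⟩ := afp_of_slo hz hslo
    exact ⟨α, ν, fun ω hω => hν ω (hB₁A ω hω)⟩
  obtain ⟨φ, hφ⟩ := hz.vis
  have hosc : ∀ ω ω', B₁ ω → B₁ ω' → Fam.pt F ω = Fam.pt F ω' → ∀ j, |V ω j - V ω' j| ≤ 40 := by
    intro ω ω' h1 h2 e j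
    rw [hV]
    refine pv_osc hz (hB₁A ω h1) (hB₁A ω' h2) ?_ j
    rw [hφ ω (hB₁A ω h1), hφ ω' (hB₁A ω' h2), ptr_J, e]
  obtain ⟨t1, t2, -⟩ := zst_thm J Fr F w J' J h (pkC lam (P - w) i₀ iu) (fun ω => fr (y ω)) B₁
    hvis hpt
  -- the conclusion in the coordinates
  have fin : ∀ B' : F.Ω → Prop, Sub B' B₁ → Pe F.p B₁ ≤ 2 * Pe F.p B' →
      (StP i₀ iN (C * ((ρ + r₁) / ρ')) (Fam.pt F) V B' ∨
        CoP i₀ (C * (ρ' + ρ + r₁)) (Fam.pt F) V B') →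
      ∃ B' : F.Ω → Prop, Sub B' (fun ω => B ω ∧ A ω) ∧
        Pe F.p (fun ω => B ω ∧ A ω) ≤ C * Pe F.p B' ∧
        ((∃ a b : (Fin 3 → ℤ) × (ℕ × F.ζ) → ℝ, ∀ ω, B' ω →
          |fn i₀ iu iN (y ω).c (y ω).s (F.d ω) - a (Fam.pt F ω) - b (Fam.pt F ω) * F.d ω i₀| ≤
            C * ((ρ + r₁) / ρ') * (2 ^ w / 2 ^ P)) ∨
        CoP i₀ (C * (ρ' + ρ + r₁)) (Fam.pt F) F.d B') := by
    intro B' hB' hPB' hc
    have hPe := Pe_nonneg hp B'
    refine ⟨B', fun ω hω => hB₁ ω (hB' ω hω), ?_, ?_⟩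
    · calc Pe F.p (fun ω => B ω ∧ A ω) ≤ C0 * Pe F.p B₁ := hP₁
        _ ≤ C0 * (2 * Pe F.p B') := mul_le_mul_of_nonneg_left hPB' (by linarith only [hC01])
        _ = 2 * C0 * Pe F.p B' := by ring
        _ ≤ C * Pe F.p B' := mul_le_mul_of_nonneg_right (by rw [hC]; linarith only [hC1, hC3]) hPe
    · rcases hc with hc | hc
      · left
        rw [hV] at hc
        obtain ⟨a, b, hab⟩ := zs6_thm J F i₀ iu iN hz.cov w lam P y B' _ hwP hc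
        refine ⟨a, b, fun ω hω => (hab ω hω).trans (le_of_eq ?_)⟩
        ring
      · right
        obtain ⟨a, ha⟩ := hc
        refine ⟨a, fun ω hω => ?_⟩
        have := ha ω hω
        rw [hV, pv_i0] at this
        exact this
  have hrr : 0 ≤ (ρ + r₁) / ρ' := by positivity
  have hone : ρ + r₁ ≤ (ρ + r₁) / ρ' := by
    rw [le_div_iff₀ hρ']
    exact mul_le_of_le_one_right (by positivity) hρ'1
  have hPB₁ := Pe_nonneg hp B₁
  have stm : ∀ {X Y : ℝ} {B' : F.Ω → Prop}, X ≤ Y → StP i₀ iN X (Fam.pt F) V B' →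
      StP i₀ iN Y (Fam.pt F) V B' := by
    intro X Y B' hXY hS
    obtain ⟨a, b, hab⟩ := hS
    exact ⟨a, b, fun ω hω => (hab ω hω).trans hXY⟩
  have com : ∀ {X Y : ℝ} {B' : F.Ω → Prop}, X ≤ Y → CoP i₀ X (Fam.pt F) V B' →
      CoP i₀ Y (Fam.pt F) V B' := by
    intro X Y B' hXY hS
    obtain ⟨a, hab⟩ := hS
    exact ⟨a, fun ω hω => (hab ω hω).trans hXY⟩
  have hJ' : (1 : ℝ) / 2 ^ J' ≤ ρ := hρJ
  rcases hcase with hc | hc | hc | hc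
  · -- planks of the zoom
    have h1 : PlU 1 ρ (Fam.pt (F.zm w J' h (pkC lam (P - w) i₀ iu) (fun ω => fr (y ω))))
        (F.zm w J' h (pkC lam (P - w) i₀ iu) (fun ω => fr (y ω))).d B₁ :=
      PlU.hered _ _ _ _ B B₁ hB₁B hc
    have h2 := zm_plu F h (fun ω => fr (y ω)) hvis hpt h1
    have h3 : PlU 1 (2 * ρ) (Fam.pt F) V B₁ := by
      rw [hV]
      exact PlU.mono (by linarith only [hρJ]) h2
    obtain ⟨B', hB', hPB', hc'⟩ := hZ1 F.Ω _ F.fin F.p hp i₀ iN (Fam.pt F) V B₁ (2 * ρ) ρ' 40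
      (by linarith only [hρ0]) hρ' hρ'1 (by norm_num) hosc h3
    refine fin B' hB' hPB' ?_
    rcases hc' with hc' | hc'
    · refine Or.inl (stm ?_ hc')
      have e1 : C1 * (2 * ρ) / ρ' = 2 * C1 * (ρ / ρ') := by ring
      have e2 : ρ / ρ' ≤ (ρ + r₁) / ρ' := div_le_div_of_nonneg_right (by linarith only [hr0]) hρ'.le
      rw [e1]
      exact mul_le_mul (by rw [hC]; linarith only [hC1, hC3, hC01]) e2 (by positivity) (by rw [hC]; linarith only [hC1, hC3, hC01])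
    · refine Or.inr (com ?_ hc')
      rw [hC]
      nlinarith only [hρ', hr0, hρ0, hC1, hC3, hC01, mul_nonneg (by linarith only [hC1] : (0 : ℝ) ≤ C1) hρ'.le,
        mul_nonneg (by linarith only [hC1] : (0 : ℝ) ≤ C1) hρ0, mul_nonneg (by linarith only [hC1] : (0 : ℝ) ≤ C1) hr0,
        mul_nonneg (by linarith only [hC3] : (0 : ℝ) ≤ C3) hρ'.le,
        mul_nonneg (by linarith only [hC3] : (0 : ℝ) ≤ C3) hρ0, mul_nonneg (by linarith only [hC3] : (0 : ℝ) ≤ C3) hr0,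
        mul_nonneg (by linarith only [hC01] : (0 : ℝ) ≤ C0) hρ'.le,
        mul_nonneg (by linarith only [hC01] : (0 : ℝ) ≤ C0) hρ0, mul_nonneg (by linarith only [hC01] : (0 : ℝ) ≤ C0) hr0]
  · -- the chart `i₀`
    have h1 : GrP i₀ 6 ρ (Fam.pt (F.zm w J' h (pkC lam (P - w) i₀ iu) (fun ω => fr (y ω))))
        (F.zm w J' h (pkC lam (P - w) i₀ iu) (fun ω => fr (y ω))).d B₁ :=
      GrP.hered _ _ _ _ _ B B₁ hB₁B hc
    obtain ⟨n, s, hns⟩ := t1 i₀ 6 ρ (by norm_num) h1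
    have h3 : GrP i₀ 6 (20 * ρ) (Fam.pt F) V B₁ := by
      rw [hV]
      refine ⟨n, s, fun ω hω => ?_⟩
      obtain ⟨a1, a2, a3⟩ := hns ω hω
      refine ⟨a1, a2, a3.trans ?_⟩
      have e1 : (3 * 6 + 1) / 2 ^ J' = 19 * ((1 : ℝ) / 2 ^ J') := by ring
      rw [e1]
      linarith only [hρJ]
    obtain ⟨B', hB', hPB', hc'⟩ := hZ3 F.Ω _ F.fin F.p hp i₀ iu iN hz.cov (Fam.pt F) V B₁ 6
      (20 * ρ) ρ' (1 / 24) r₁ 40 (by norm_num) (by linarith only [hρ0]) hr0 hρ' hρ'1 (by norm_num)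
      (by norm_num) hosc hAf h3
    refine fin B' hB' hPB' ?_
    rcases hc' with hc' | hc'
    · refine Or.inl (stm ?_ hc')
      have e1 : C3 * (20 * ρ + 6 * r₁) / ρ' = C3 * ((20 * ρ + 6 * r₁) / ρ') := by ring
      have e2 : (20 * ρ + 6 * r₁) / ρ' ≤ 20 * ((ρ + r₁) / ρ') := by
        rw [← mul_div_assoc]
        exact div_le_div_of_nonneg_right (by linarith only [hr0]) hρ'.le
      rw [e1]
      calc C3 * ((20 * ρ + 6 * r₁) / ρ') ≤ C3 * (20 * ((ρ + r₁) / ρ')) :=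
            mul_le_mul_of_nonneg_left e2 (by linarith only [hC3])
        _ = 20 * C3 * ((ρ + r₁) / ρ') := by ring
        _ ≤ C * ((ρ + r₁) / ρ') := mul_le_mul_of_nonneg_right (by rw [hC]; linarith only [hC1, hC3, hC01]) hrr
    · refine Or.inr (com ?_ hc')
      rw [hC]
      nlinarith only [hρ', hr0, hρ0, hC1, hC3, hC01, mul_nonneg (by linarith only [hC1] : (0 : ℝ) ≤ C1) hρ'.le,
        mul_nonneg (by linarith only [hC1] : (0 : ℝ) ≤ C1) hρ0, mul_nonneg (by linarith only [hC1] : (0 : ℝ) ≤ C1) hr0,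
        mul_nonneg (by linarith only [hC3] : (0 : ℝ) ≤ C3) hρ'.le,
        mul_nonneg (by linarith only [hC3] : (0 : ℝ) ≤ C3) hρ0, mul_nonneg (by linarith only [hC3] : (0 : ℝ) ≤ C3) hr0,
        mul_nonneg (by linarith only [hC01] : (0 : ℝ) ≤ C0) hρ'.le,
        mul_nonneg (by linarith only [hC01] : (0 : ℝ) ≤ C0) hρ0, mul_nonneg (by linarith only [hC01] : (0 : ℝ) ≤ C0) hr0]
  · -- the chart `iN`
    have h1 : GrP iN 6 ρ (Fam.pt (F.zm w J' h (pkC lam (P - w) i₀ iu) (fun ω => fr (y ω))))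
        (F.zm w J' h (pkC lam (P - w) i₀ iu) (fun ω => fr (y ω))).d B₁ :=
      GrP.hered _ _ _ _ _ B B₁ hB₁B hc
    obtain ⟨n, s, hns⟩ := t1 iN 6 ρ (by norm_num) h1
    have h3 : GrP iN 6 (20 * ρ) (Fam.pt F) V B₁ := by
      rw [hV]
      refine ⟨n, s, fun ω hω => ?_⟩
      obtain ⟨a1, a2, a3⟩ := hns ω hω
      refine ⟨a1, a2, a3.trans ?_⟩
      have e1 : (3 * 6 + 1) / 2 ^ J' = 19 * ((1 : ℝ) / 2 ^ J') := by ring
      rw [e1]
      linarith only [hρJ]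
    have h4 := zs2_thm F.Ω _ i₀ iu iN hz.cov (Fam.pt F) V B₁ 6 (20 * ρ) (1 / 24) r₁
      (by norm_num) hAf h3
    refine fin B₁ (fun ω hω => hω) (by linarith only [hPB₁]) (Or.inl (stm ?_ h4))
    calc 20 * ρ + 6 * r₁ ≤ 20 * (ρ + r₁) := by linarith only [hr0]
      _ ≤ C * ((ρ + r₁) / ρ') := mul_le_mul (by rw [hC]; linarith only [hC1, hC3, hC01]) hone (by positivity)
          (by rw [hC]; linarith only [hC1, hC3, hC01])
  · -- the tilt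
    have h1 : TiltP i₀ iu iN 6 ρ' ρ
        (Fam.pt (F.zm w J' h (pkC lam (P - w) i₀ iu) (fun ω => fr (y ω))))
        (F.zm w J' h (pkC lam (P - w) i₀ iu) (fun ω => fr (y ω))).d B₁ :=
      TiltP.hered _ _ _ _ _ _ _ _ B B₁ hB₁B hc
    have h2 := t2 i₀ iu iN 6 ρ' ρ (by norm_num) h1
    have h4 : StP i₀ iN ((ρ + (2 * 6 + 1) / 2 ^ J' + r₁) / ρ') (Fam.pt F) V B₁ := by
      refine zs4_thm F.Ω _ i₀ iu iN (Fam.pt F) V B₁ 6 ρ' _ (1 / 24) r₁ hρ' hAf ?_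
      rw [hV]
      exact h2
    refine fin B₁ (fun ω hω => hω) (by linarith only [hPB₁]) (Or.inl (stm ?_ h4))
    have e1 : (2 * 6 + 1) / 2 ^ J' = 13 * ((1 : ℝ) / 2 ^ J') := by ring
    rw [e1]
    have e2 : (ρ + 13 * (1 / 2 ^ J') + r₁) / ρ' ≤ 14 * ((ρ + r₁) / ρ') := by
      have e3 : 14 * ((ρ + r₁) / ρ') = 14 * (ρ + r₁) / ρ' := by ring
      rw [e3]
      exact div_le_div_of_nonneg_right (by linarith only [hρJ, hr0]) hρ'.le
    exact e2.trans (mul_le_mul_of_nonneg_right (by rw [hC]; linarith only [hC1, hC3, hC01]) hrr)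

end Pool.PZ
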